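import Mathlib
import Pool.Agent.Lib.helper31.PExt

namespace Pool.Agent.Results.MP_31efb7_an.AmenabilityExceeds

open Set Filter Topology Pool.Agent.Lib.helper31.PExt

/-- `d` is a `q`-metric: `d ^ q` is a metric. -/
def IsQMetric (q : ℝ) {M : Type} (d : M → M → ℝ) : Prop :=
  (∀ x y, 0 ≤ d x y) ∧ (∀ x y, d x y = 0 ↔ x = y) ∧ (∀ x y, d x y = d y x) ∧
    ∀ x y z, d x z ^ q ≤ d x y ^ q + d y z ^ q

/-- The norm of `∑ aₓ δ(x)` in the Lipschitz-free `p`-space over `(M, d, o)`. -/
noncomputable def fnorm (p : ℝ) {M : Type} (d : M → M → ℝ) (o : M) (a : M →₀ ℝ) : ENNReal :=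
  ⨆ (Y : Type) (_ : AddCommGroup Y) (_ : Module ℝ Y) (ν : Y → ℝ) (_ : IsPBanach p ν) (f : M → Y)
    (_ : f o = 0) (_ : ∀ x y, ν (f x - f y) ≤ d x y), ENNReal.ofReal (ν (a.sum fun x c => c • f x))

/-- The `p`-amenability constant `am_p(N, M)`. -/
noncomputable def am (p : ℝ) {M : Type} (d : M → M → ℝ) (o : M) (N : Set M) (ho : o ∈ N) :
    ENNReal :=
  ⨆ (a : N →₀ ℝ) (_ : ∃ x : N, (x : M) ≠ o ∧ a x ≠ 0),
    fnorm p (fun x y : N => d x y) ⟨o, ho⟩ a / fnorm p d o (a.mapDomain Subtype.val)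

theorem rpow_sum_le {ι : Type*} {p : ℝ} (hp : 0 < p) (hp1 : p ≤ 1) (s : Finset ι) (t : ι → ℝ)
    (ht : ∀ i, 0 ≤ t i) : (∑ i ∈ s, t i) ^ p ≤ ∑ i ∈ s, t i ^ p := by
  classical
  induction s using Finset.induction_on with
  | empty => simp [Real.zero_rpow hp.ne']
  | insert a s ha ih =>
    rw [Finset.sum_insert ha, Finset.sum_insert ha]
    exact (Real.rpow_add_le_add_rpow (ht a) (Finset.sum_nonneg fun i _ => ht i) hp.le hp1).trans
      (by linarith)

theorem nu_sum_le {p : ℝ} (hp : 0 < p) {Y : Type} [AddCommGroup Y] [Module ℝ Y] {ν : Y → ℝ}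
    (h : IsPBanach p ν) {ι : Type*} (s : Finset ι) (v : ι → Y) :
    ν (∑ i ∈ s, v i) ^ p ≤ ∑ i ∈ s, ν (v i) ^ p := by
  classical
  induction s using Finset.induction_on with
  | empty =>
    have h0 : ν 0 = 0 := by simpa using h.smul 0 0
    simp [h0, Real.zero_rpow hp.ne']
  | insert a s ha ih =>
    rw [Finset.sum_insert ha, Finset.sum_insert ha]
    exact (h.add _ _).trans (by linarith)

section Quot
variable {J L : Type} [Fintype J] [Fintype L] (p : ℝ) (w : J → ℝ) (Φ : (J → ℝ) →ₗ[ℝ] (L → ℝ))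

/-- The weighted `p`-cost. -/
noncomputable def cost (a : J → ℝ) : ℝ := ∑ j, w j * |a j| ^ p

/-- The quotient `p`-norm. -/
noncomputable def qn (v : L → ℝ) : ℝ := (sInf (cost p w '' {a | Φ a = v})) ^ p⁻¹

variable {p w Φ}

theorem cost_nonneg (hw : ∀ j, 1 ≤ w j) (a : J → ℝ) : 0 ≤ cost p w a :=
  Finset.sum_nonneg fun j _ => mul_nonneg (by linarith [hw j]) (by positivity)

omit [Fintype L] in
theorem inf_nonneg (hw : ∀ j, 1 ≤ w j) (v : L → ℝ) : 0 ≤ sInf (cost p w '' {a | Φ a = v}) :=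
  Real.sInf_nonneg (by rintro _ ⟨a, -, rfl⟩; exact cost_nonneg hw a)

omit [Fintype L] in
theorem qn_rpow (hp : 0 < p) (hw : ∀ j, 1 ≤ w j) (v : L → ℝ) :
    qn p w Φ v ^ p = sInf (cost p w '' {a | Φ a = v}) :=
  Real.rpow_inv_rpow (inf_nonneg hw v) hp.ne'

omit [Fintype L] in
theorem qn_nonneg (hw : ∀ j, 1 ≤ w j) (v : L → ℝ) : 0 ≤ qn p w Φ v :=
  Real.rpow_nonneg (inf_nonneg hw v) _

omit [Fintype L] in
theorem qn_le (hp : 0 < p) (hw : ∀ j, 1 ≤ w j) (a : J → ℝ) : qn p w Φ (Φ a) ^ p ≤ cost p w a := by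
  rw [qn_rpow hp hw]
  exact csInf_le ⟨0, by rintro _ ⟨a, -, rfl⟩; exact cost_nonneg hw a⟩ ⟨a, rfl, rfl⟩

omit [Fintype L] in
theorem le_qn (hp : 0 < p) (hw : ∀ j, 1 ≤ w j) (hΦ : Function.Surjective Φ) {v : L → ℝ} {c : ℝ}
    (h : ∀ a, Φ a = v → c ≤ cost p w a) : c ≤ qn p w Φ v ^ p := by
  rw [qn_rpow hp hw]
  obtain ⟨a, ha⟩ := hΦ v
  exact le_csInf ⟨_, a, ha, rfl⟩ (by rintro _ ⟨a, ha, rfl⟩; exact h a ha)

theorem qn_banach (hp : 0 < p) (hp1 : p ≤ 1) (hw : ∀ j, 1 ≤ w j) (hΦ : Function.Surjective Φ) :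
    IsPBanach p (qn p w Φ) := by
  obtain ⟨Ψ, hΨ⟩ := Φ.exists_rightInverse_of_surjective (LinearMap.range_eq_top.2 hΦ)
  obtain ⟨A, hA, hA2⟩ := (LinearMap.toContinuousLinearMap Φ).bound
  obtain ⟨B, hB, hB2⟩ := (LinearMap.toContinuousLinearMap Ψ).bound
  have hlow : ∀ v, ‖v‖ ≤ A * qn p w Φ v := by
    intro v
    rw [← div_le_iff₀' hA, ← Real.rpow_le_rpow_iff (by positivity) (qn_nonneg hw v) hp]
    refine le_qn hp hw hΦ fun a ha => ?_
    have h1 : ‖a‖ ≤ cost p w a ^ p⁻¹ := by
      refine (pi_norm_le_iff_of_nonneg (Real.rpow_nonneg (cost_nonneg hw a) _)).2 fun j => ?_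
      rw [Real.le_rpow_inv_iff_of_pos (norm_nonneg _) (cost_nonneg hw a) hp, Real.norm_eq_abs]
      refine le_trans (le_mul_of_one_le_left (by positivity) (hw j)) ?_
      exact Finset.single_le_sum (f := fun j => w j * |a j| ^ p)
        (fun j _ => mul_nonneg (by linarith [hw j]) (by positivity)) (Finset.mem_univ j)
    rw [← Real.le_rpow_inv_iff_of_pos (by positivity) (cost_nonneg hw a) hp, div_le_iff₀' hA, ← ha]
    exact (hA2 a).trans (by gcongr)
  have hW : 0 ≤ ∑ j, w j := Finset.sum_nonneg fun j _ => by linarith [hw j]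
  have hup : ∀ v, qn p w Φ v ≤ ((∑ j, w j) ^ p⁻¹ * B + 1) * ‖v‖ := by
    intro v
    have h1 : Φ (Ψ v) = v := LinearMap.congr_fun hΨ v
    have h2 := qn_le (Φ := Φ) hp hw (Ψ v)
    rw [h1] at h2
    have h3 : cost p w (Ψ v) ≤ ((∑ j, w j) ^ p⁻¹ * (B * ‖v‖)) ^ p := by
      rw [Real.mul_rpow (by positivity) (by positivity), Real.rpow_inv_rpow hW hp.ne', cost,
        Finset.sum_mul]
      refine Finset.sum_le_sum fun j _ => mul_le_mul_of_nonneg_left ?_ (by linarith [hw j])
      exact Real.rpow_le_rpow (abs_nonneg _) ((norm_le_pi_norm (Ψ v) j).trans (hB2 v)) hp.le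
    have h4 := (Real.rpow_le_rpow_iff (qn_nonneg hw v) (by positivity) hp).1 (h2.trans h3)
    nlinarith [norm_nonneg v]
  have hsm : ∀ (t : ℝ) v, qn p w Φ (t • v) ≤ |t| * qn p w Φ v := by
    intro t v
    rcases eq_or_ne t 0 with rfl | ht
    · have := hup 0
      simpa using this
    have ht' : 0 < |t| ^ p := by positivity
    rw [← Real.rpow_le_rpow_iff (qn_nonneg hw _) (mul_nonneg (abs_nonneg _) (qn_nonneg hw _)) hp,
      Real.mul_rpow (abs_nonneg _) (qn_nonneg hw _), ← div_le_iff₀' ht']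
    refine le_qn hp hw hΦ fun a ha => ?_
    have h1 := qn_le (Φ := Φ) hp hw (t • a)
    rw [map_smul, ha] at h1
    rw [div_le_iff₀' ht']
    refine h1.trans (le_of_eq ?_)
    simp only [cost, Finset.mul_sum, Pi.smul_apply, smul_eq_mul, abs_mul,
      Real.mul_rpow (abs_nonneg _) (abs_nonneg _)]
    exact Finset.sum_congr rfl fun j _ => by ring
  refine ⟨qn_nonneg hw, fun v hv => ?_, fun t v => le_antisymm (hsm t v) ?_, fun u v => ?_,
    fun u hu => ?_⟩
  · have := (norm_pos_iff.2 hv).trans_le (hlow v)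
    exact (mul_pos_iff_of_pos_left hA).1 this
  · rcases eq_or_ne t 0 with rfl | ht
    · simpa using qn_nonneg hw _
    have := hsm t⁻¹ (t • v)
    rw [smul_smul, inv_mul_cancel₀ ht, one_smul, abs_inv] at this
    rwa [← le_inv_mul_iff₀ (abs_pos.2 ht)]
  · rw [← sub_le_iff_le_add]
    refine le_qn hp hw hΦ fun a ha => ?_
    rw [sub_le_comm]
    refine le_qn hp hw hΦ fun b hb => ?_
    have h1 := qn_le (Φ := Φ) hp hw (a + b)
    rw [map_add, ha, hb] at h1
    have h2 : cost p w (a + b) ≤ cost p w a + cost p w b := by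
      simp only [cost, ← Finset.sum_add_distrib, ← mul_add]
      exact Finset.sum_le_sum fun j _ =>
        mul_le_mul_of_nonneg_left (abs_add_rpow hp hp1 _ _) (by linarith [hw j])
    linarith
  · have hc : CauchySeq u := Metric.cauchySeq_iff.2 fun ε hε => by
      obtain ⟨N, hN⟩ := hu (ε / A) (by positivity)
      refine ⟨N, fun i hi j hj => ?_⟩
      rw [dist_eq_norm]
      exact (hlow _).trans_lt ((lt_div_iff₀' hA).1 (hN i hi j hj))
    obtain ⟨l, hl⟩ := cauchySeq_tendsto_of_complete hc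
    refine ⟨l, fun ε hε => ?_⟩
    obtain ⟨N, hN⟩ := Metric.tendsto_atTop.1 hl (ε / ((∑ j, w j) ^ p⁻¹ * B + 1)) (by positivity)
    refine ⟨N, fun i hi => (hup _).trans_lt ?_⟩
    have := hN i hi
    rwa [dist_eq_norm, lt_div_iff₀' (by positivity)] at this

end Quot

theorem analysis {p α β : ℝ} (hp : 0 < p) (hp1 : p < 1) (hα : 0 < α) (hαβ : α < β) :
    ∃ n : ℕ, 0 < n ∧ ∀ u w : Fin n → ℝ, (∀ i, 0 ≤ u i) → (∀ i, 0 ≤ w i) → (∀ i, 1 ≤ u i + w i) →
      (n : ℝ) ≤ ∑ i, u i → n * α + α * n ^ p + 1 ≤ ∑ i, (β * u i ^ p + α * w i ^ p) := by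
  set β' := (α + β) / 2 with hβ'
  have hr := tendsto_rpow_atTop hp
  obtain ⟨t, ht1, ht2⟩ := ((eventually_ge_atTop (1 : ℝ)).and
    ((hr.const_mul_atTop (by linarith : 0 < β - β')).eventually_ge_atTop α)).exists
  set κ := (β - α) / t with hκ
  have hκ0 : 0 < κ := div_pos (by linarith) (by linarith)
  have hβ'0 : 0 < β' := by linarith
  obtain ⟨s0, hs0, hs1⟩ := ((eventually_gt_atTop (0 : ℝ)).and
    ((tendsto_rpow_neg_atTop (by linarith : 0 < 1 - p)).eventually
      (ge_mem_nhds (div_pos hκ0 hβ'0)))).exists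
  have hC : ∀ s : ℝ, 0 ≤ s → β' * s ^ p ≤ κ * s + β' * s0 ^ p := by
    intro s hs
    rcases le_total s s0 with h | h
    · have := Real.rpow_le_rpow hs h hp.le
      nlinarith [mul_nonneg hκ0.le hs]
    · have h1 : s ^ (-(1 - p)) ≤ κ / β' :=
        (Real.rpow_le_rpow_of_nonpos hs0 h (by linarith)).trans hs1
      have h2 : s ^ p = s ^ (-(1 - p)) * s := by
        rw [← Real.rpow_add_one (by linarith)]; congr 1; ring
      rw [le_div_iff₀ hβ'0] at h1
      rw [h2]
      have : 0 ≤ β' * s0 ^ p := by positivity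
      nlinarith
  obtain ⟨n, hn0, hn⟩ := ((eventually_gt_atTop 0).and
    (((hr.comp tendsto_natCast_atTop_atTop).const_mul_atTop
      (by linarith : 0 < β' - α)).eventually_ge_atTop (β' * s0 ^ p + 1))).exists
  refine ⟨n, hn0, fun u w hu hw huw hs => ?_⟩
  let a : Fin n → ℝ := fun i => if t ≤ u i then u i else 0
  let b : Fin n → ℝ := fun i => if t ≤ u i then 0 else u i
  have ha : ∀ i, 0 ≤ a i := fun i => by simp only [a]; split_ifs; exacts [hu i, le_rfl]
  have hb : ∀ i, 0 ≤ b i := fun i => by simp only [b]; split_ifs; exacts [le_rfl, hu i]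
  have h1 : ∀ i, α + β' * a i ^ p + κ * b i ≤ β * u i ^ p + α * w i ^ p := by
    intro i
    have w0 : 0 ≤ α * w i ^ p := mul_nonneg hα.le (Real.rpow_nonneg (hw i) _)
    simp only [a, b]
    split_ifs with h
    · have := Real.rpow_le_rpow (by linarith) h hp.le
      nlinarith
    · rw [Real.zero_rpow hp.ne']
      have k1 : κ * u i ≤ (β - α) * min (u i) 1 := by
        rw [hκ, div_mul_eq_mul_div, mul_div_assoc]
        refine mul_le_mul_of_nonneg_left (le_min ?_ ?_) (by linarith)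
        · exact div_le_self (hu i) ht1
        · exact (div_le_one (by linarith)).2 (not_le.1 h).le
      rcases le_total (u i) 1 with h2 | h2
      · have e1 : u i ≤ u i ^ p := Real.self_le_rpow_of_le_one (hu i) h2 hp1.le
        have e2 : 1 ≤ u i ^ p + w i ^ p :=
          (Real.one_le_rpow (huw i) hp.le).trans
            (Real.rpow_add_le_add_rpow (hu i) (hw i) hp.le hp1.le)
        rw [min_eq_left h2] at k1
        nlinarith
      · have e1 := Real.one_le_rpow h2 hp.le
        rw [min_eq_right h2] at k1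
        nlinarith
  have h2 := Finset.sum_le_sum fun i (_ : i ∈ Finset.univ) => h1 i
  rw [Finset.sum_add_distrib, Finset.sum_add_distrib, ← Finset.mul_sum, ← Finset.mul_sum] at h2
  simp only [Finset.sum_const, Finset.card_univ, Fintype.card_fin, nsmul_eq_mul] at h2
  have h3 := rpow_sum_le hp hp1.le Finset.univ a ha
  have h4 := hC _ (Finset.sum_nonneg fun i (_ : i ∈ Finset.univ) => hb i)
  have h5 : (n : ℝ) ^ p ≤ (∑ i, a i) ^ p + (∑ i, b i) ^ p := by
    refine le_trans (Real.rpow_le_rpow (Nat.cast_nonneg n) ?_ hp.le) (Real.rpow_add_le_add_rpow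
      (Finset.sum_nonneg fun i _ => ha i) (Finset.sum_nonneg fun i _ => hb i) hp.le hp1.le)
    rw [← Finset.sum_add_distrib]
    refine hs.trans (le_of_eq (Finset.sum_congr rfl fun i _ => ?_))
    simp only [a, b]; split_ifs <;> simp
  simp only [Function.comp] at hn
  nlinarith

section Flow
variable {k n : ℕ}

/-- The divergence of a flow. -/
def dv (k n : ℕ) : ((Fin k × Fin n) ⊕ (Fin k × Fin n) × (Fin k × Fin n) → ℝ) →ₗ[ℝ]
    (Fin k × Fin n → ℝ) where
  toFun a x := a (.inl x) + ∑ y, (a (.inr (x, y)) - a (.inr (y, x)))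
  map_add' a b := by
    funext x
    simp only [Pi.add_apply, Finset.sum_sub_distrib, Finset.sum_add_distrib]; ring
  map_smul' c a := by
    funext x
    simp only [Pi.smul_apply, smul_eq_mul, RingHom.id_apply, mul_add, Finset.mul_sum, mul_sub]

/-- The weights. -/
def wt (α β γ : ℝ) : (Fin k × Fin n) ⊕ (Fin k × Fin n) × (Fin k × Fin n) → ℝ :=
  Sum.elim (fun _ => β) fun q => if q.1.1 = q.2.1 then α else γ

theorem dv_surj : Function.Surjective (dv k n) := fun v =>
  ⟨Sum.elim v 0, by funext x; simp [dv]⟩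

theorem flow_lower {p α β γ X : ℝ} (hp : 0 < p) (hp1 : p ≤ 1) (hα : 0 ≤ α) (hβ : 0 ≤ β)
    (hβγ : β ≤ γ)
    (H : ∀ u w : Fin n → ℝ, (∀ i, 0 ≤ u i) → (∀ i, 0 ≤ w i) → (∀ i, 1 ≤ u i + w i) →
      (n : ℝ) ≤ ∑ i, u i → X ≤ ∑ i, (β * u i ^ p + α * w i ^ p))
    (a) (ha : dv k n a = 1) : k * X ≤ cost p (wt α β γ) a := by
  let F : Fin k × Fin n → Fin k × Fin n → ℝ :=
    fun x y => max (a (.inr (x, y))) 0 + max (-a (.inr (y, x))) 0
  have hF0 : ∀ x y, 0 ≤ F x y := fun x y => add_nonneg (le_max_right _ _) (le_max_right _ _)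
  have hF : ∀ x y, a (.inr (x, y)) - a (.inr (y, x)) ≤ F x y := fun x y => by
    have := le_max_left (a (.inr (x, y))) 0
    have := le_max_left (-a (.inr (y, x))) 0
    simp only [F]; linarith
  let U : Fin k × Fin n → Fin k × Fin n → ℝ := fun x y => if x.1 = y.1 then 0 else F x y
  let W : Fin k × Fin n → Fin k × Fin n → ℝ := fun x y => if x.1 = y.1 then F x y else 0
  have hU : ∀ x y, 0 ≤ U x y := fun x y => by simp only [U]; split_ifs; exacts [le_rfl, hF0 x y]
  have hW : ∀ x y, 0 ≤ W x y := fun x y => by simp only [W]; split_ifs; exacts [hF0 x y, le_rfl]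
  let u : Fin k × Fin n → ℝ := fun x => |a (.inl x)| + ∑ y, U x y
  let w : Fin k × Fin n → ℝ := fun x => ∑ y, W x y
  have hdiv : ∀ x, a (.inl x) + ∑ y, (a (.inr (x, y)) - a (.inr (y, x))) = 1 := congrFun ha
  have h1 : ∀ c, X ≤ ∑ i, (β * u (c, i) ^ p + α * w (c, i) ^ p) := by
    intro c
    refine H _ _ (fun i => add_nonneg (abs_nonneg _) (Finset.sum_nonneg fun y _ => hU _ y))
      (fun i => Finset.sum_nonneg fun y _ => hW _ y) (fun i => ?_) ?_
    · simp only [u, w]
      rw [← hdiv (c, i), add_assoc, ← Finset.sum_add_distrib]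
      refine add_le_add (le_abs_self _) (Finset.sum_le_sum fun y _ => (hF _ y).trans ?_)
      simp only [U, W]; split_ifs <;> simp
    · let G : Fin n → Fin k × Fin n → ℝ := fun i y =>
        if c = y.1 then a (.inr ((c, i), y)) - a (.inr (y, (c, i))) else 0
      have hG : ∑ i, ∑ y, G i y = 0 := by
        have : ∀ i, ∑ y, G i y = ∑ j, (a (.inr ((c, i), (c, j))) - a (.inr ((c, j), (c, i)))) := by
          intro i
          rw [Fintype.sum_prod_type, Finset.sum_comm]
          simp [G]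
        simp only [this, Finset.sum_sub_distrib]
        rw [Finset.sum_comm, sub_self]
      have h2 : ∀ i, 1 ≤ u (c, i) + ∑ y, G i y := by
        intro i
        simp only [u]
        rw [← hdiv (c, i), add_assoc, ← Finset.sum_add_distrib]
        refine add_le_add (le_abs_self _) (Finset.sum_le_sum fun y _ => ?_)
        simp only [U, G]
        split_ifs
        · simp
        · simpa using hF _ y
      have h3 := Finset.sum_le_sum fun i (_ : i ∈ Finset.univ) => h2 i
      rw [Finset.sum_add_distrib, hG] at h3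
      simpa using h3
  let ω : Fin k × Fin n → Fin k × Fin n → ℝ := fun x y => if x.1 = y.1 then α else γ
  have h2 : ∀ x, β * u x ^ p + α * w x ^ p ≤ β * |a (.inl x)| ^ p +
      ∑ y, ω x y * (max (a (.inr (x, y))) 0 ^ p + max (-a (.inr (y, x))) 0 ^ p) := by
    intro x
    have e1 : u x ^ p ≤ |a (.inl x)| ^ p + ∑ y, U x y ^ p :=
      (Real.rpow_add_le_add_rpow (abs_nonneg _) (Finset.sum_nonneg fun y _ => hU x y) hp.le
        hp1).trans (by gcongr; exact rpow_sum_le hp hp1 _ _ (hU x))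
    have e2 : w x ^ p ≤ ∑ y, W x y ^ p := rpow_sum_le hp hp1 _ _ (hW x)
    have e3 : β * ∑ y, U x y ^ p + α * ∑ y, W x y ^ p ≤
        ∑ y, ω x y * (max (a (.inr (x, y))) 0 ^ p + max (-a (.inr (y, x))) 0 ^ p) := by
      rw [Finset.mul_sum, Finset.mul_sum, ← Finset.sum_add_distrib]
      refine Finset.sum_le_sum fun y _ => ?_
      have e4 : F x y ^ p ≤ max (a (.inr (x, y))) 0 ^ p + max (-a (.inr (y, x))) 0 ^ p :=
        Real.rpow_add_le_add_rpow (le_max_right _ _) (le_max_right _ _) hp.le hp1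
      have e5 : 0 ≤ F x y ^ p := Real.rpow_nonneg (hF0 x y) _
      simp only [U, W, ω]
      split_ifs
      · rw [Real.zero_rpow hp.ne']; nlinarith
      · rw [Real.zero_rpow hp.ne']; nlinarith
    nlinarith
  have h3 : ∑ x, (β * |a (.inl x)| ^ p +
      ∑ y, ω x y * (max (a (.inr (x, y))) 0 ^ p + max (-a (.inr (y, x))) 0 ^ p)) =
      cost p (wt α β γ) a := by
    rw [cost, Fintype.sum_sum_type, Finset.sum_add_distrib]
    congr 1
    simp only [mul_add, Finset.sum_add_distrib]
    rw [Finset.sum_comm (f := fun x y => ω x y * max (-a (.inr (y, x))) 0 ^ p),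
      ← Finset.sum_add_distrib, Fintype.sum_prod_type (α₁ := Fin k × Fin n)]
    refine Finset.sum_congr rfl fun x _ => ?_
    rw [← Finset.sum_add_distrib]
    refine Finset.sum_congr rfl fun y _ => ?_
    have e : ω y x = ω x y := by simp only [ω, eq_comm]
    rw [e, ← mul_add]
    congr 1
    rcases le_total (a (.inr (x, y))) 0 with h | h
    · rw [max_eq_right h, max_eq_left (by linarith), Real.zero_rpow hp.ne', abs_of_nonpos h,
        zero_add]
    · rw [max_eq_left h, max_eq_right (by linarith), Real.zero_rpow hp.ne', abs_of_nonneg h,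
        add_zero]
  rw [← h3]
  refine le_trans ?_ (Finset.sum_le_sum fun x _ => h2 x)
  rw [Fintype.sum_prod_type]
  simpa using Finset.sum_le_sum fun c (_ : c ∈ Finset.univ) => h1 c

end Flow

/-- The star metric on `Option A`. -/
def dO {A : Type} [DecidableEq A] : Option A → Option A → ℕ
  | none, none => 0
  | none, some _ => 1
  | some _, none => 1
  | some a, some b => if a = b then 0 else 2

theorem dO_zero {A : Type} [DecidableEq A] (x y : Option A) : dO x y = 0 ↔ x = y := by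
  cases x <;> cases y <;> simp [dO]

theorem dO_symm {A : Type} [DecidableEq A] (x y : Option A) : dO x y = dO y x := by
  cases x <;> cases y <;> simp [dO, eq_comm]

theorem dO_tri {A : Type} [DecidableEq A] (x y z : Option A) : dO x z ≤ dO x y + dO y z := by
  cases x <;> cases y <;> cases z <;> simp only [dO] <;> (try split_ifs) <;> simp_all

/-- The ambient space. -/
abbrev MM (k n : ℕ) : Type := Option Unit × Option (Fin k) × Option (Fin k × Fin n)

/-- The tree distance. -/
def rho {k n : ℕ} (x y : MM k n) : ℕ := dO x.1 y.1 + dO x.2.1 y.2.1 + dO x.2.2 y.2.2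

/-- The leaves. -/
def leaf {k n : ℕ} (l : Fin k × Fin n) : MM k n := (some (), some l.1, some l)

/-- For `0 < p ≤ q ≤ 1` with `p < 1` the bound `2 ^ (1 / q)` fails. -/
theorem result (p q : ℝ) (hp : 0 < p) (hpq : p ≤ q) (_hq : q ≤ 1) (hp1 : p < 1) :
    ∃ (M : Type) (_ : Finite M) (d : M → M → ℝ) (o : M) (N : Set M) (ho : o ∈ N),
      IsQMetric q d ∧ ENNReal.ofReal (2 ^ (1 / q)) < am p d o N ho := by
  classical
  have hq0 : 0 < q := hp.trans_le hpq
  have hr : 0 < p / q := div_pos hp hq0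
  set α : ℝ := 2 ^ (p / q) with hα
  set β : ℝ := 3 ^ (p / q) with hβ
  set γ : ℝ := 4 ^ (p / q) with hγ
  have hα1 : 1 ≤ α := Real.one_le_rpow (by norm_num) hr.le
  have hαβ : α < β := Real.rpow_lt_rpow (by norm_num) (by norm_num) hr
  have hβγ : β < γ := Real.rpow_lt_rpow (by norm_num) (by norm_num) hr
  obtain ⟨n, hn, H⟩ := analysis hp hp1 (by linarith) hαβ
  have hn' : (0 : ℝ) < n := by exact_mod_cast hn
  obtain ⟨k, hk, hk2⟩ := ((eventually_gt_atTop 0).and
    (((tendsto_rpow_neg_atTop (by linarith : 0 < 1 - p)).comp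
      tendsto_natCast_atTop_atTop).eventually
        (gt_mem_nhds (by positivity : 0 < 1 / (α * n ^ p))))).exists
  have hk' : (0 : ℝ) < k := by exact_mod_cast hk
  let d : MM k n → MM k n → ℝ := fun x y => (rho x y : ℝ) ^ q⁻¹
  let o : MM k n := (none, none, none)
  let N : Set (MM k n) := insert o (range leaf)
  have hdp : ∀ x y, d x y ^ p = (rho x y : ℝ) ^ (p / q) := fun x y => by
    simp only [d]
    rw [← Real.rpow_mul (Nat.cast_nonneg _), inv_mul_eq_div]
  have hd0 : ∀ x y, 0 ≤ d x y := fun x y => by positivity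
  refine ⟨MM k n, inferInstance, d, o, N, Or.inl rfl, ⟨hd0, fun x y => ?_, fun x y => ?_,
    fun x y z => ?_⟩, ?_⟩
  · simp only [d]
    rw [Real.rpow_eq_zero (Nat.cast_nonneg _) (inv_ne_zero hq0.ne'), Nat.cast_eq_zero]
    simp [rho, dO_zero, Prod.ext_iff, and_assoc]
  · simp only [d, rho, dO_symm x.1, dO_symm x.2.1, dO_symm x.2.2]
  · simp only [d, Real.rpow_inv_rpow (Nat.cast_nonneg _) hq0.ne']
    have h1 := dO_tri x.1 y.1 z.1
    have h2 := dO_tri x.2.1 y.2.1 z.2.1
    have h3 := dO_tri x.2.2 y.2.2 z.2.2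
    have : rho x z ≤ rho x y + rho y z := by simp only [rho]; omega
    exact_mod_cast this
  let lf : Fin k × Fin n → N := fun l => ⟨leaf l, Or.inr ⟨l, rfl⟩⟩
  let a : N →₀ ℝ := ∑ l, Finsupp.single (lf l) 1
  have hsum : ∀ {Y : Type} [AddCommGroup Y] [Module ℝ Y] (f : N → Y),
      (a.sum fun x c => c • f x) = ∑ l, f (lf l) := by
    intro Y _ _ f
    rw [← Finsupp.linearCombination_apply]
    simp [a]
  set X : ℝ := k * (n * α + α * n ^ p + 1) with hX
  set Z : ℝ := k * n + k * n ^ p + (k * n) ^ p with hZ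
  have hZ0 : 0 < Z := by positivity
  have hXZ : α * Z < X := by
    have h1 : (k : ℝ) ^ p = k ^ (-(1 - p)) * k := by
      rw [← Real.rpow_add_one hk'.ne']; congr 1; ring
    have h2 : (k : ℝ) ^ (-(1 - p)) * (α * n ^ p) < 1 := (lt_div_iff₀ (by positivity)).1 hk2
    rw [hX, hZ, Real.mul_rpow hk'.le hn'.le, h1]
    nlinarith
  have hw : ∀ j, 1 ≤ wt (k := k) (n := n) α β γ j := by
    rintro (j | j)
    · exact hα1.trans hαβ.le
    · simp only [wt, Sum.elim_inr]
      split_ifs <;> linarith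
  have hN : ENNReal.ofReal (X ^ p⁻¹) ≤ fnorm p (fun x y : N => d x y) ⟨o, Or.inl rfl⟩ a := by
    have hb := qn_banach hp hp1.le hw dv_surj
    let f : N → Fin k × Fin n → ℝ := fun x => x.1.2.2.elim 0 fun l => Pi.single l 1
    refine le_iSup₂_of_le (Fin k × Fin n → ℝ) inferInstance (le_iSup₂_of_le inferInstance
      (qn p (wt α β γ) (dv k n)) (le_iSup₂_of_le hb f (le_iSup₂_of_le rfl ?_ ?_)))
    · have c1 : ∀ j, cost p (wt (k := k) (n := n) α β γ) (Pi.single j 1) = wt α β γ j := by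
        intro j
        rw [cost, Finset.sum_eq_single j (fun i _ hi => by simp [hi, Real.zero_rpow hp.ne'])
          (by simp)]
        simp
      have c2 : ∀ l, qn p (wt α β γ) (dv k n) (Pi.single l 1) ^ p ≤ β := by
        intro l
        have := qn_le (Φ := dv k n) hp hw (Pi.single (.inl l) 1)
        rw [c1] at this
        have e : dv k n (Pi.single (.inl l) 1) = Pi.single l 1 := by
          funext x
          simp [dv, Pi.single_apply]
        rwa [e] at this
      have c3 : ∀ l m, qn p (wt α β γ) (dv k n) (Pi.single l 1 - Pi.single m 1) ^ p ≤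
          if l.1 = m.1 then α else γ := by
        intro l m
        have := qn_le (Φ := dv k n) hp hw (Pi.single (.inr (l, m)) 1)
        rw [c1] at this
        have e : dv k n (Pi.single (.inr (l, m)) 1) = Pi.single l 1 - Pi.single m 1 := by
          funext x
          simp [dv, Pi.single_apply, Finset.sum_sub_distrib, ite_and]
        rwa [e] at this
      have h0 : qn p (wt α β γ) (dv k n) 0 = 0 := by simpa using hb.smul 0 0
      rintro ⟨x, rfl | ⟨l, rfl⟩⟩ ⟨y, rfl | ⟨m, rfl⟩⟩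
      · simp [h0, hd0]
      · rw [← Real.rpow_le_rpow_iff (hb.nonneg _) (hd0 _ _) hp, hdp]
        have := hb.smul (-1) (Pi.single m 1)
        have c4 := c2 m
        simp only [neg_smul, one_smul, abs_neg, abs_one, one_mul] at this
        simpa [f, o, leaf, rho, dO, this] using c4
      · rw [← Real.rpow_le_rpow_iff (hb.nonneg _) (hd0 _ _) hp, hdp]
        simpa [f, o, leaf, rho, dO] using c2 l
      · by_cases hlm : l = m
        · subst hlm
          simp [h0, hd0]
        rw [← Real.rpow_le_rpow_iff (hb.nonneg _) (hd0 _ _) hp, hdp]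
        refine (c3 l m).trans (le_of_eq ?_)
        by_cases h : l.1 = m.1
        · simp [leaf, rho, dO, h, hlm, hα]
        · simp [leaf, rho, dO, h, hlm, hγ]
    · refine ENNReal.ofReal_le_ofReal ?_
      rw [Real.rpow_inv_le_iff_of_pos (by positivity) (hb.nonneg _) hp, hsum]
      have e : ∑ l, f (lf l) = 1 := by
        funext x
        simp [f, lf, leaf, Pi.single_apply]
      rw [e]
      exact le_qn hp hw dv_surj (flow_lower hp hp1.le (by linarith) (by linarith) hβγ.le H)
  have hM : fnorm p d o (a.mapDomain Subtype.val) ≤ ENNReal.ofReal (Z ^ p⁻¹) := by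
    simp only [fnorm, iSup_le_iff]
    intro Y _ _ ν hν f f0 hf
    refine ENNReal.ofReal_le_ofReal ?_
    rw [Real.le_rpow_inv_iff_of_pos (hν.nonneg _) hZ0.le hp,
      Finsupp.sum_mapDomain_index_inj Subtype.val_injective, hsum]
    let s : MM k n := (some (), none, none)
    let c : Fin k → MM k n := fun i => (some (), some i, none)
    have hf' : ∀ x y, rho x y = 1 → ν (f x - f y) ≤ 1 := fun x y h => by
      simpa [d, h] using hf x y
    have e : ∑ l, f (lf l) = ∑ l : Fin k × Fin n, (f (leaf l) - f (c l.1)) +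
        ∑ i, (n : ℝ) • (f (c i) - f s) + ((k : ℝ) * n) • (f s - f o) := by
      simp only [lf, f0, Finset.sum_sub_distrib, Fintype.sum_prod_type, smul_sub,
        Finset.sum_const, Finset.card_univ, Fintype.card_fin, ← Nat.cast_smul_eq_nsmul ℝ,
        smul_smul, smul_zero]
      abel
    rw [e]
    refine (hν.add _ _).trans (add_le_add ((hν.add _ _).trans (add_le_add ?_ ?_)) ?_)
    · refine (nu_sum_le hp hν _ _).trans ?_
      refine (Finset.sum_le_card_nsmul _ _ 1 fun l _ => ?_).trans (by simp)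
      exact Real.rpow_le_one (hν.nonneg _) (hf' _ _ (by simp [rho, dO, leaf, c])) hp.le
    · refine (nu_sum_le hp hν _ _).trans ?_
      refine (Finset.sum_le_card_nsmul _ _ ((n : ℝ) ^ p) fun i _ => ?_).trans (by simp)
      refine Real.rpow_le_rpow (hν.nonneg _) ?_ hp.le
      rw [hν.smul, abs_of_pos hn']
      exact mul_le_of_le_one_right hn'.le (hf' _ _ (by simp [rho, dO, s, c]))
    · refine Real.rpow_le_rpow (hν.nonneg _) ?_ hp.le
      rw [hν.smul, abs_of_pos (by positivity)]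
      exact mul_le_of_le_one_right (by positivity) (hf' _ _ (by simp [rho, dO, s, o]))
  refine lt_of_lt_of_le ?_ (le_iSup₂_of_le a ⟨lf (⟨0, hk⟩, ⟨0, hn⟩), by simp [lf, leaf, o], ?_⟩
    (ENNReal.div_le_div hN hM))
  · have hX0 : 0 < X := by positivity
    rw [← ENNReal.ofReal_div_of_pos (by positivity), ENNReal.ofReal_lt_ofReal_iff (by positivity),
      lt_div_iff₀ (by positivity), ← Real.rpow_lt_rpow_iff (by positivity) (by positivity) hp,
      Real.mul_rpow (by positivity) (by positivity), Real.rpow_inv_rpow hZ0.le hp.ne',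
      Real.rpow_inv_rpow hX0.le hp.ne', ← Real.rpow_mul (by norm_num), one_div, inv_mul_eq_div]
    exact hXZ
  · have hinj : Function.Injective lf := fun l m h => by simpa [lf, leaf] using (congrArg (·.1.2.2) h)
    simp [a, Finsupp.finsetSum_apply, Finsupp.single_apply, hinj.eq_iff]

end Pool.Agent.Results.MP_31efb7_an.AmenabilityExceeds
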